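import Pool.Agent.MWA.Stmts

/-! Squad MWA, row BTU. -/

set_option autoImplicit false

namespace Pool.Agent.MWA.H10

open Pool.Agent.Helper14_MV Pool.Agent.Helper2_MV Pool.Agent.MVO Pool.Agent.MWL Pool.Agent.MWS

theorem lst_psh {k0 k : ℕ} {f c : ℕ → ℕ} {i0 : ℕ} (hf : BMap k0 k f) (h : Lst k0 c i0) :
    Lst k (psh k0 f c) (f i0) := by
  obtain ⟨h1, h2, h3⟩ := h
  refine ⟨hf.le i0 h1, ?_, ?_⟩
  · intro h0
    unfold psh at h0
    rw [Finset.sum_eq_zero_iff] at h0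
    have := h0 i0 (Finset.mem_range.2 (Nat.lt_succ_of_le h1))
    rw [if_pos rfl] at this
    exact h2 this
  · intro j hj _
    unfold psh
    refine Finset.sum_eq_zero fun i hi => ?_
    have hi' : i ≤ k0 := Nat.lt_succ_iff.1 (Finset.mem_range.1 hi)
    split_ifs with hfi
    · refine h3 i ?_ hi'
      by_contra hlt
      have := hf.mono i i0 (Nat.le_of_not_lt hlt) h1
      omega
    · rfl

theorem deg_psh {k0 k : ℕ} {f : ℕ → ℕ} (c : ℕ → ℕ) (hf : BMap k0 k f) :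
    deg k (psh k0 f c) = deg k0 c := by
  unfold deg psh
  rw [Finset.sum_comm]
  refine Finset.sum_congr rfl fun i hi => ?_
  have hi' : i ≤ k0 := Nat.lt_succ_iff.1 (Finset.mem_range.1 hi)
  rw [Finset.sum_ite_eq]
  rw [if_pos (Finset.mem_range.2 (Nat.lt_succ_of_le (hf.le i hi')))]

theorem w2_congr {k : ℕ} {a a' b b' : ℕ → ℕ} (e : ℕ → Bool) (ha : ∀ j ≤ k, a j = a' j)
    (hb : ∀ j ≤ k, b j = b' j) : w2 k a b e = w2 k a' b' e := by
  unfold w2
  refine asm_congr fun j hj => ?_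
  rw [ha j hj, hb j hj]

theorem bt_congr {θ : FIC} {k : ℕ} {a a' b b' : ℕ → ℕ} {i : ℕ} (ha : ∀ j ≤ k, a j = a' j)
    (hb : ∀ j ≤ k, b j = b' j) (h : Bt θ k a b i) : Bt θ k a' b' i := by
  intro e
  have h1 := h e
  unfold Ex at h1 ⊢
  rw [← w2_congr e ha hb, ← w2_congr (flp e i) ha hb]
  exact h1

theorem btu (hfaa : FaaStmt) (hspm : SpmStmt) : BtuStmt := by
  intro θ hθ k0 k f a0 b0 a b i0 hf hda hdb hla hlb hbt ha hb
  obtain ⟨-, -, f3, f4, -, -⟩ := hfaa θ hθ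
  have h4 := f4 k0 k f a0 b0 i0 hf hda hdb hla.1 ((hspm _ _ _).1 hla) ((hspm _ _ _).1 hlb) hbt
  have hpa := lst_psh hf hla
  have hpb := lst_psh hf hlb
  have h3 := f3 k (psh k0 f a0) (psh k0 f b0) (fun t => a t - psh k0 f a0 t)
    (fun t => b t - psh k0 f b0 t) (f i0) (by rw [deg_psh a0 hf]; exact hda)
    (by rw [deg_psh b0 hf]; exact hdb) hpa.1 ((hspm _ _ _).1 hpa) ((hspm _ _ _).1 hpb) h4
  refine bt_congr ?_ ?_ h3
  · intro j hj
    have := ha j hj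
    show psh k0 f a0 j + (a j - psh k0 f a0 j) = a j
    omega
  · intro j hj
    have := hb j hj
    show psh k0 f b0 j + (b j - psh k0 f b0 j) = b j
    omega

end Pool.Agent.MWA.H10
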